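import Pool.Agent.N463.MI.Stm

/-!
Project MI, part F01a: the choice of `K` (helper99).
-/

set_option autoImplicit false

namespace Pool.Agent.N99.MI

open Pool.Agent.N463.MI

theorem core (n : ℕ) (L c : ℝ) (hL0 : 0 < L) (hc0 : 0 < c) (K0 : ℕ) (hK0 : 1 ≤ K0)
    (hy : ((K0 : ℝ) - 1 / 2) ^ 2 * c ≤ L ^ 2 * n) :
    ∃ K : ℕ, K0 ≤ K ∧
      |(n : ℝ) * (L / K) ^ 2 / c - 1| ≤ 1 / (K : ℝ) + 1 / (4 * (K : ℝ) ^ 2) ∧
      c / (L / K) ≤ √(c * n) + c / (2 * L) := by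
  have hn0 : (0 : ℝ) ≤ n := Nat.cast_nonneg n
  obtain ⟨s, hs⟩ : ∃ s : ℝ, s = √((n : ℝ) / c) := ⟨_, rfl⟩
  have hs0 : 0 ≤ s := by rw [hs]; exact Real.sqrt_nonneg _
  have hs2 : s ^ 2 = n / c := by rw [hs]; exact Real.sq_sqrt (by positivity)
  obtain ⟨y, hyd⟩ : ∃ y : ℝ, y = L * s := ⟨_, rfl⟩
  have hy0 : 0 ≤ y := by rw [hyd]; positivity
  have hy2 : y ^ 2 = n * L ^ 2 / c := by rw [hyd, mul_pow, hs2]; ring
  have hy2' : y ^ 2 * c = L ^ 2 * n := by rw [hy2]; field_simp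
  have hK0r : (1 : ℝ) ≤ K0 := by exact_mod_cast hK0
  have h1 : (K0 : ℝ) - 1 / 2 ≤ y := by
    have h2 : ((K0 : ℝ) - 1 / 2) ^ 2 ≤ y ^ 2 := by
      rw [← hy2'] at hy
      exact le_of_mul_le_mul_right hy hc0
    exact (abs_le_of_sq_le_sq' h2 hy0).2
  obtain ⟨K, hK⟩ : ∃ K : ℕ, K = ⌊y + 1 / 2⌋₊ := ⟨_, rfl⟩
  have e1 : (K : ℝ) ≤ y + 1 / 2 := by rw [hK]; exact Nat.floor_le (by positivity)
  have e2 : y + 1 / 2 < (K : ℝ) + 1 := by rw [hK]; exact Nat.lt_floor_add_one _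
  have e3 : K0 ≤ K := by
    rw [hK]
    exact Nat.le_floor (by linarith)
  have e4 : (1 : ℝ) ≤ K := hK0r.trans (by exact_mod_cast e3)
  have hKp : (0 : ℝ) < K := by linarith
  refine ⟨K, e3, ?_, ?_⟩
  · have h2 : (n : ℝ) * (L / K) ^ 2 / c - 1 = (y ^ 2 - K ^ 2) / K ^ 2 := by
      rw [hy2]
      field_simp
    have h3 : 1 / (K : ℝ) + 1 / (4 * (K : ℝ) ^ 2) = (K + 1 / 4) / K ^ 2 := by
      field_simp
    rw [h2, h3, abs_div, abs_of_pos (show (0 : ℝ) < (K : ℝ) ^ 2 by positivity)]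
    refine div_le_div_of_nonneg_right ?_ (by positivity)
    rw [abs_le]
    constructor <;> nlinarith
  · have h2 : c / (L / K) = c / L * K := by field_simp
    have h3 : √(c * n) = c * s := by
      rw [Real.sqrt_eq_iff_mul_self_eq (by positivity) (by positivity)]
      have : c * s * (c * s) = c ^ 2 * s ^ 2 := by ring
      rw [this, hs2]
      field_simp
    have h4 : c / L * K ≤ c / L * (y + 1 / 2) := mul_le_mul_of_nonneg_left e1 (by positivity)
    have h5 : c / L * (y + 1 / 2) = c * s + c / (2 * L) := by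
      rw [hyd]
      field_simp
    rw [h2, h3]
    linarith

/-- F01a -/
theorem t_F01a (h4 : B04) : F01a := by
  intro a n ha hn
  obtain ⟨b1, b2, b3, b4⟩ := h4
  have hnr : (150000 : ℝ) ≤ n := by exact_mod_cast hn
  rcases ha with rfl | rfl
  · have hl := Real.log_two_gt_d9
    have hc : 0 < cst 2 := by
      have := sq_nonneg (Real.log 2)
      linarith
    obtain ⟨K, k1, k2, k3⟩ := core n (Real.log 2) (cst 2) (by linarith) hc 340 (by norm_num) (by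
      have h1 : (0.6931471803 : ℝ) ^ 2 ≤ Real.log 2 ^ 2 :=
        pow_le_pow_left₀ (by norm_num) hl.le 2
      have h2 : (0.6931471803 : ℝ) ^ 2 * 150000 ≤ Real.log 2 ^ 2 * n := by
        apply mul_le_mul h1 hnr (by norm_num) (by positivity)
      push_cast
      nlinarith)
    exact ⟨K, Or.inl ⟨rfl, k1⟩, k2, k3⟩
  · have hl := Real.log_three_gt_d9
    have hc : 0 < cst 3 := by
      have := sq_nonneg (Real.log 3)
      linarith
    obtain ⟨K, k1, k2, k3⟩ := core n (Real.log 3) (cst 3) (by linarith) hc 400 (by norm_num) (by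
      have h1 : (1.0986122885 : ℝ) ^ 2 ≤ Real.log 3 ^ 2 :=
        pow_le_pow_left₀ (by norm_num) hl.le 2
      have h2 : (1.0986122885 : ℝ) ^ 2 * 150000 ≤ Real.log 3 ^ 2 * n := by
        apply mul_le_mul h1 hnr (by norm_num) (by positivity)
      push_cast
      nlinarith)
    exact ⟨K, Or.inr ⟨rfl, k1⟩, k2, k3⟩

end Pool.Agent.N99.MI
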